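import Pool.Agent.V5helper55.BF.Asy1

/-!
# Bilinear families: the choice of the parameters
-/

set_option autoImplicit false

set_option maxHeartbeats 1000000

namespace Pool.Agent.V5helper55.BF

open Finset

/-- the closure of the class of the families of nearly minimal energy under products and arbitrary additive
perturbations, for positive orders -/
theorem closure_pos (p s B : ℕ) (κ : ℝ) (hκ : 0 < κ) : ∃ P : ℕ, ∀ ε : ℝ, 0 < ε → ∃ θ₀ : ℝ, 0 < θ₀ ∧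
    ∀ θ : ℝ, 0 < θ → θ ≤ θ₀ → ∃ N₀ : ℕ, ∀ N : ℕ, N₀ ≤ N → ∀ (ι ι' : Type) [Fintype ι] [Fintype ι']
      (M L : ℕ) (v a : ι → ℤ) (w b : ι' → ℤ), (N : ℝ) ^ κ ≤ M → (N : ℝ) ^ κ ≤ L → M ≤ B * N →
      L ≤ B * N → (N : ℝ) ^ (1 - θ) ≤ M * L → (∀ i, |v i| ≤ M) → (∀ j, |w j| ≤ L) →
      (rep (p + 1) v 0 : ℝ) * M ≤ (N : ℝ) ^ θ * (Fintype.card ι : ℝ) ^ (2 * (p + 1)) →
      (rep (s + 1) w 0 : ℝ) * L ≤ (N : ℝ) ^ θ * (Fintype.card ι' : ℝ) ^ (2 * (s + 1)) →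
      (rep P (fun z : ι × ι' => a z.1 + b z.2 + v z.1 * w z.2) 0 : ℝ) * N ≤
        (N : ℝ) ^ ε * ((Fintype.card ι : ℝ) * Fintype.card ι') ^ (2 * P) := by
  obtain ⟨R, hR⟩ := exists_nat_ge (2 / κ)
  refine ⟨2 * (p + 1) * (s + 1) * (2 * (R + 2)), fun ε hε => ?_⟩
  obtain ⟨δ, hδ⟩ : ∃ δ : ℝ, δ = ε / 8 := ⟨_, rfl⟩
  have hδ0 : 0 < δ := by rw [hδ]; positivity
  obtain ⟨Cd, hCd0, hCd⟩ := Pool.Agent.N852.divisor_bound δ hδ0
  obtain ⟨C3, hC3⟩ : ∃ C3 : ℝ, C3 = (100 * ((p : ℝ) + 1) ^ 2 + 500 * (p + 1) * (s + 1) ^ 2) *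
    ((5 * ((p : ℝ) + 1)) ^ s) ^ 2 := ⟨_, rfl⟩
  obtain ⟨C4, hC4⟩ : ∃ C4 : ℝ, C4 = 32 * (25 * ((p : ℝ) + 1) * (s + 1)) ^ 3 *
    ((5 * ((p : ℝ) + 1)) ^ s) ^ 4 * (Cd * ((16 * (p + 1) * (s + 1) * B ^ 2 : ℝ)) ^ δ) := ⟨_, rfl⟩
  have hC30 : 0 ≤ C3 := by rw [hC3]; positivity
  have hC40 : 0 ≤ C4 := by rw [hC4]; positivity
  obtain ⟨n1, h1⟩ := ev C3 (κ / 4) (by positivity)
  obtain ⟨n2, h2⟩ := ev (2 * C4) (ε / 2) (by positivity)
  obtain ⟨n3, h3⟩ := ev 2 ε hε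
  refine ⟨min (κ / (4 * (2 * (s + 2)))) (ε / (4 * (4 * (s + 2) + 1))), by positivity,
    fun θ hθ hθ' => ⟨n1 + n2 + n3 + 1, fun N hN ι ι' _ _ M L v a w b hM hL hMB hLB hML hv hw hE1 hE2 => ?_⟩⟩
  have hN1 : (1 : ℝ) ≤ N := by exact_mod_cast (by omega : 1 ≤ N)
  have hN0 : (0 : ℝ) < N := by linarith
  have t1 : 2 * (s + 2) * θ ≤ κ / 4 := by
    have := hθ'.trans (min_le_left _ _)
    rw [le_div_iff₀ (by positivity)] at this
    linarith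
  have t2 : (4 * (s + 2) + 1) * θ ≤ ε / 4 := by
    have := hθ'.trans (min_le_right _ _)
    rw [le_div_iff₀ (by positivity)] at this
    linarith
  have hNκ : (1 : ℝ) ≤ (N : ℝ) ^ κ := Real.one_le_rpow hN1 hκ.le
  have hM1 : (1 : ℝ) ≤ M := hNκ.trans hM
  have hL1 : (1 : ℝ) ≤ L := hNκ.trans hL
  have hT : ∀ q, |df (p + 1) v q| ≤ ((2 * (p + 1) * M : ℕ) : ℤ) := by
    intro q
    have := abs_df (p + 1) v M hv q
    push_cast at this ⊢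
    linarith
  have hU : ∀ q, |df (s + 1) w q| ≤ ((2 * (s + 1) * L : ℕ) : ℤ) := by
    intro q
    have := abs_df (s + 1) w L hw q
    push_cast at this ⊢
    linarith
  obtain ⟨Dr, hDr⟩ : ∃ Dr : ℝ, Dr = Cd * ((16 * (p + 1) * (s + 1) * B ^ 2 : ℝ)) ^ δ * (N : ℝ) ^ (2 * δ) :=
    ⟨_, rfl⟩
  have hDr0 : 0 ≤ Dr := by rw [hDr]; positivity
  have hD : ∀ c : ℕ, c ≠ 0 → c ≤ (2 * (s + 1) * L) * (2 * (2 * (p + 1) * M)) →
      c.divisors.card ≤ ⌊Dr⌋₊ := by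
    intro c hc hcle
    apply Nat.le_floor
    refine (hCd c hc).trans ?_
    rw [hDr, mul_assoc]
    apply mul_le_mul_of_nonneg_left _ hCd0.le
    have e1 : (N : ℝ) ^ (2 * δ) = ((N : ℝ) ^ 2) ^ δ := by
      rw [← Real.rpow_natCast, ← Real.rpow_mul hN0.le]
      norm_num
    rw [e1, ← Real.mul_rpow (by positivity) (by positivity)]
    apply Real.rpow_le_rpow (Nat.cast_nonneg _) _ hδ0.le
    have e2 : c ≤ 16 * (p + 1) * (s + 1) * B ^ 2 * N ^ 2 := by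
      refine hcle.trans ?_
      calc (2 * (s + 1) * L) * (2 * (2 * (p + 1) * M)) ≤
            (2 * (s + 1) * (B * N)) * (2 * (2 * (p + 1) * (B * N))) := by gcongr
        _ = 8 * (p + 1) * (s + 1) * B ^ 2 * N ^ 2 := by ring
        _ ≤ _ := by gcongr; norm_num
    exact_mod_cast e2
  have hmain := energy_bound v a w b p s R (2 * (p + 1) * M) (2 * (s + 1) * L) ⌊Dr⌋₊ hT hU hD _ rfl
  obtain ⟨K, hK⟩ : ∃ K : ℝ, K = K0 (Fintype.card ι) (Fintype.card ι') (rep (p + 1) v 0)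
    (rep (s + 1) w 0) p s (2 * (p + 1) * M) := ⟨_, rfl⟩
  rw [← hK] at hmain
  have hT1 : (2 * ((2 * (p + 1) * M : ℕ) : ℝ) + 1) ≤ 5 * (p + 1) * M := by
    push_cast
    have h1 : (1 : ℝ) ≤ (p + 1) * M := by
      have : (0 : ℝ) ≤ p * M := by positivity
      linarith
    calc 2 * (2 * ((p : ℝ) + 1) * M) + 1 = 4 * ((p + 1) * M) + 1 := by ring
      _ ≤ 5 * ((p + 1) * M) := by linarith
      _ = _ := by ring
  have hU1 : (2 * ((2 * (s + 1) * L : ℕ) : ℝ) + 1) ≤ 5 * (s + 1) * L := by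
    push_cast
    have h1 : (1 : ℝ) ≤ (s + 1) * L := by
      have : (0 : ℝ) ≤ s * L := by positivity
      linarith
    calc 2 * (2 * ((s : ℝ) + 1) * L) + 1 = 4 * ((s + 1) * L) + 1 := by ring
      _ ≤ 5 * ((s + 1) * L) := by linarith
      _ = _ := by ring
  have hKb := K_bound (Fintype.card ι) (Fintype.card ι') (rep (p + 1) v 0) (rep (s + 1) w 0)
    ((N : ℝ) ^ θ) M L p s (2 * (p + 1) * M) (by positivity) (by positivity) (by positivity)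
    (by positivity) (by positivity) hM1 hL1 hT1 hE1 hE2
  rw [← hK] at hKb
  have hK00 : 0 ≤ K := by rw [hK]; unfold K0; positivity
  obtain ⟨Y, hY⟩ : ∃ Y : ℝ, Y = ((Fintype.card ι : ℝ) * Fintype.card ι') ^ (4 * (p + 1) * (s + 1)) :=
    ⟨_, rfl⟩
  have hY0 : 0 ≤ Y := by rw [hY]; positivity
  rw [← hY] at hKb
  have hpowY : ∀ k : ℕ, ((Fintype.card ι : ℝ) * Fintype.card ι') ^ (4 * (p + 1) * (s + 1) * k) = Y ^ k := by
    intro k
    rw [pow_mul, ← hY]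
  rw [hpowY] at hmain
  have hgM : 1 ≤ (N : ℝ) ^ (-κ) * M := by
    rw [Real.rpow_neg hN0.le, inv_mul_eq_div, le_div_iff₀ (by positivity)]
    linarith
  have hgL : 1 ≤ (N : ℝ) ^ (-κ) * L := by
    rw [Real.rpow_neg hN0.le, inv_mul_eq_div, le_div_iff₀ (by positivity)]
    linarith
  have hNM : (N : ℝ) ≤ (N : ℝ) ^ θ * (M * L) := by
    calc (N : ℝ) = (N : ℝ) ^ θ * (N : ℝ) ^ (1 - θ) := by
          rw [← Real.rpow_add hN0]
          norm_num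
      _ ≤ _ := by gcongr
  have hreal := real_part K Y ((N : ℝ) ^ θ) ((N : ℝ) ^ (-κ)) M L (2 * ((2 * (p + 1) * M : ℕ) : ℝ) + 1)
    (2 * ((2 * (s + 1) * L : ℕ) : ℝ) + 1) ⌊Dr⌋₊ N ((N : ℝ) ^ θ) ((5 * (p + 1)) ^ s) _ p s R hK00 hY0
    (by positivity) hM1 hL1 (by positivity) (by positivity) (by positivity) hN0.le (by positivity)
    (by positivity) (by positivity) hT1 hU1 hgM hgL hNM rfl hKb
  have hfin1 : (N : ℝ) * ((100 * ((p : ℝ) + 1) ^ 2 + 500 * (p + 1) * (s + 1) ^ 2) *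
      ((5 * ((p : ℝ) + 1)) ^ s) ^ 2 * (N : ℝ) ^ (-κ) * ((N : ℝ) ^ θ) ^ (2 * (s + 2))) ^ (R + 2) ≤ 1 := by
    rw [← hC3]
    have e1 : C3 * (N : ℝ) ^ (-κ) * ((N : ℝ) ^ θ) ^ (2 * (s + 2)) ≤ (N : ℝ) ^ (-(κ / 2)) := by
      calc C3 * (N : ℝ) ^ (-κ) * ((N : ℝ) ^ θ) ^ (2 * (s + 2)) ≤
            (N : ℝ) ^ (κ / 4) * (N : ℝ) ^ (-κ) * (N : ℝ) ^ (κ / 4) := by
            gcongr
            · exact h1 N (by omega)
            · rw [← Real.rpow_natCast, ← Real.rpow_mul hN0.le]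
              apply Real.rpow_le_rpow_of_exponent_le hN1
              push_cast
              linarith
        _ = _ := by
            rw [← Real.rpow_add hN0, ← Real.rpow_add hN0]
            congr 1
            ring
    calc (N : ℝ) * (C3 * (N : ℝ) ^ (-κ) * ((N : ℝ) ^ θ) ^ (2 * (s + 2))) ^ (R + 2) ≤
          (N : ℝ) * ((N : ℝ) ^ (-(κ / 2))) ^ (R + 2) := by gcongr
      _ = (N : ℝ) ^ (1 - κ / 2 * (R + 2)) := by
          rw [← Real.rpow_natCast, ← Real.rpow_mul hN0.le]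
          nth_rw 1 [← Real.rpow_one (N : ℝ)]
          rw [← Real.rpow_add hN0]
          congr 1
          push_cast
          ring
      _ ≤ (N : ℝ) ^ (0 : ℝ) := by
          apply Real.rpow_le_rpow_of_exponent_le hN1
          have : 2 ≤ R * κ := by
            rw [div_le_iff₀ hκ] at hR
            exact hR
          have h5 : κ / 2 * (R + 2) = R * κ / 2 + κ := by ring
          rw [h5]
          linarith
      _ = 1 := Real.rpow_zero _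
  have hfin2 : 32 * (25 * ((p : ℝ) + 1) * (s + 1)) ^ 3 * ((5 * ((p : ℝ) + 1)) ^ s) ^ 4 *
      ((N : ℝ) ^ θ) ^ (4 * (s + 2)) * (N : ℝ) ^ θ * ⌊Dr⌋₊ ≤ 1 / 2 * (N : ℝ) ^ ε := by
    have e0 : (⌊Dr⌋₊ : ℝ) ≤ Dr := Nat.floor_le hDr0
    calc 32 * (25 * ((p : ℝ) + 1) * (s + 1)) ^ 3 * ((5 * ((p : ℝ) + 1)) ^ s) ^ 4 *
          ((N : ℝ) ^ θ) ^ (4 * (s + 2)) * (N : ℝ) ^ θ * ⌊Dr⌋₊ ≤
          32 * (25 * ((p : ℝ) + 1) * (s + 1)) ^ 3 * ((5 * ((p : ℝ) + 1)) ^ s) ^ 4 *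
          ((N : ℝ) ^ θ) ^ (4 * (s + 2)) * (N : ℝ) ^ θ * Dr := by gcongr
      _ = C4 * (((N : ℝ) ^ θ) ^ (4 * (s + 2)) * (N : ℝ) ^ θ * (N : ℝ) ^ (2 * δ)) := by
          rw [hC4, hDr]; ring
      _ = C4 * (N : ℝ) ^ ((4 * (s + 2) + 1) * θ + 2 * δ) := by
          congr 1
          rw [← Real.rpow_natCast, ← Real.rpow_mul hN0.le, ← Real.rpow_add hN0, ← Real.rpow_add hN0]
          congr 1
          push_cast
          ring
      _ ≤ C4 * (N : ℝ) ^ (ε / 2) := by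
          gcongr
          rw [hδ]
          linarith
      _ ≤ (1 / 2 * (N : ℝ) ^ (ε / 2)) * (N : ℝ) ^ (ε / 2) := by
          gcongr
          have := h2 N (by omega)
          linarith
      _ = _ := by
          rw [mul_assoc, ← Real.rpow_add hN0]
          congr 2
          ring
  have hfin3 := h3 N (by omega)
  rw [show 2 * (2 * (p + 1) * (s + 1) * (2 * (R + 2))) = 4 * (p + 1) * (s + 1) * (2 * (R + 2)) by ring,
    hpowY]
  calc (rep (2 * (p + 1) * (s + 1) * (2 * (R + 2)))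
        (fun z : ι × ι' => a z.1 + b z.2 + v z.1 * w z.2) 0 : ℝ) * N =
        N * (rep (2 * (p + 1) * (s + 1) * (2 * (R + 2)))
          (fun z : ι × ι' => a z.1 + b z.2 + v z.1 * w z.2) 0 : ℝ) := mul_comm _ _
    _ ≤ _ := mul_le_mul_of_nonneg_left hmain hN0.le
    _ ≤ _ := hreal
    _ ≤ Y ^ (2 * (R + 2)) * (1 + 1 / 2 * (N : ℝ) ^ ε) := by
        gcongr
    _ ≤ Y ^ (2 * (R + 2)) * (N : ℝ) ^ ε := by
        gcongr
        linarith
    _ = _ := mul_comm _ _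

end Pool.Agent.V5helper55.BF
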