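import Pool.Agent.V5helper55.BF.Chain
import Pool.Agent.N852.Div

/-!
# Bilinear families: the parameters
-/

set_option autoImplicit false

set_option maxHeartbeats 1000000

namespace Pool.Agent.V5helper55.BF

open Finset

lemma ev (C x : ℝ) (hx : 0 < x) : ∃ N₀ : ℕ, ∀ N : ℕ, N₀ ≤ N → C ≤ (N : ℝ) ^ x := by
  have h := ((tendsto_rpow_atTop hx).comp tendsto_natCast_atTop_atTop).eventually
    (Filter.eventually_ge_atTop C)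
  rw [Filter.eventually_atTop] at h
  obtain ⟨N₀, h⟩ := h
  exact ⟨N₀, fun N hN => h N hN⟩

lemma K_bound (n m Ev Ew A Mr Lr : ℝ) (p s T : ℕ) (hn : 0 ≤ n) (hm : 0 ≤ m) (hEv : 0 ≤ Ev) (hEw : 0 ≤ Ew)
    (hA : 0 ≤ A) (hM : 1 ≤ Mr) (hL : 1 ≤ Lr) (hT : (2 * T + 1 : ℝ) ≤ 5 * (p + 1) * Mr)
    (h1 : Ev * Mr ≤ A * n ^ (2 * (p + 1))) (h2 : Ew * Lr ≤ A * m ^ (2 * (s + 1))) :
    K0 n m Ev Ew p s T * (Mr * Lr) ≤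
      (5 * (p + 1)) ^ s * A ^ (s + 2) * (n * m) ^ (4 * (p + 1) * (s + 1)) := by
  have hMs : 0 < Mr ^ s := by positivity
  have key : K0 n m Ev Ew p s T * (Mr * Lr) * Mr ^ s ≤
      (5 * (p + 1)) ^ s * A ^ (s + 2) * (n * m) ^ (4 * (p + 1) * (s + 1)) * Mr ^ s := by
    unfold K0
    calc (n ^ (2 * (p + 1)) * (m ^ 2) ^ (2 * p + 1) * Ev) ^ (s + 1) * (2 * T + 1) ^ s * Ew *
          (Mr * Lr) * Mr ^ s =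
          (n ^ (2 * (p + 1)) * (m ^ 2) ^ (2 * p + 1) * (Ev * Mr)) ^ (s + 1) * (2 * T + 1) ^ s *
            (Ew * Lr) := by ring
      _ ≤ (n ^ (2 * (p + 1)) * (m ^ 2) ^ (2 * p + 1) * (A * n ^ (2 * (p + 1)))) ^ (s + 1) *
            (5 * (p + 1) * Mr) ^ s * (A * m ^ (2 * (s + 1))) := by
          gcongr
      _ = (n ^ (2 * (p + 1)) * (m ^ 2) ^ (2 * p + 1) * (A * n ^ (2 * (p + 1)))) ^ (s + 1) *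
            ((5 * (p + 1)) ^ s * Mr ^ s) * (A * m ^ (2 * (s + 1))) := by rw [mul_pow (5 * ((p : ℝ) + 1)) Mr s]
      _ = _ := by ring
  exact le_of_mul_le_mul_right key hMs

lemma real_part (K Y A g Mr Lr T' U' Dm N Nθ C1 W : ℝ) (p s R : ℕ) (hK : 0 ≤ K) (hY : 0 ≤ Y)
    (hA : 0 ≤ A) (hM : 1 ≤ Mr) (hL : 1 ≤ Lr) (hC1 : 0 ≤ C1) (hg : 0 ≤ g) (hDm : 0 ≤ Dm) (hN : 0 ≤ N)
    (hT0 : 0 ≤ T') (hU0 : 0 ≤ U') (hNθ : 0 ≤ Nθ)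
    (hT : T' ≤ 5 * (p + 1) * Mr) (hU : U' ≤ 5 * (s + 1) * Lr)
    (hgM : 1 ≤ g * Mr) (hgL : 1 ≤ g * Lr) (hNM : N ≤ Nθ * (Mr * Lr))
    (hW : W = C1 * A ^ (s + 2) * Y) (hKW : K * (Mr * Lr) ≤ W) :
    N * ((4 * K ^ 2 * (T' ^ 2 + U' ^ 2 * T')) ^ (R + 2) +
      Y ^ (2 * R) * (32 * K ^ 4 * U' ^ 3 * T' ^ 3 * Dm)) ≤
    Y ^ (2 * (R + 2)) * (N * ((100 * (p + 1) ^ 2 + 500 * (p + 1) * (s + 1) ^ 2) * C1 ^ 2 * g *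
      A ^ (2 * (s + 2))) ^ (R + 2) +
        32 * (25 * (p + 1) * (s + 1)) ^ 3 * C1 ^ 4 * A ^ (4 * (s + 2)) * Nθ * Dm) := by
  have hW0 : 0 ≤ W := by rw [hW]; positivity
  have hML : 0 ≤ K * (Mr * Lr) := by positivity
  have hW2 : (K * (Mr * Lr)) ^ 2 ≤ W ^ 2 := pow_le_pow_left₀ hML hKW 2
  have hW4 : (K * (Mr * Lr)) ^ 4 ≤ W ^ 4 := pow_le_pow_left₀ hML hKW 4
  have a1 : K ^ 2 * T' ^ 2 ≤ 25 * (p + 1) ^ 2 * (g * W ^ 2) := by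
    calc K ^ 2 * T' ^ 2 ≤ K ^ 2 * (5 * (p + 1) * Mr) ^ 2 := by gcongr
      _ = 25 * (p + 1) ^ 2 * (K ^ 2 * Mr ^ 2 * (1 * 1)) := by ring
      _ ≤ 25 * (p + 1) ^ 2 * (K ^ 2 * Mr ^ 2 * ((g * Lr) * Lr)) := by gcongr
      _ = 25 * (p + 1) ^ 2 * (g * (K * (Mr * Lr)) ^ 2) := by ring
      _ ≤ _ := by gcongr
  have a2 : K ^ 2 * (U' ^ 2 * T') ≤ 125 * (p + 1) * (s + 1) ^ 2 * (g * W ^ 2) := by
    calc K ^ 2 * (U' ^ 2 * T') ≤ K ^ 2 * ((5 * (s + 1) * Lr) ^ 2 * (5 * (p + 1) * Mr)) := by gcongr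
      _ = 125 * (p + 1) * (s + 1) ^ 2 * (K ^ 2 * Lr ^ 2 * Mr * 1) := by ring
      _ ≤ 125 * (p + 1) * (s + 1) ^ 2 * (K ^ 2 * Lr ^ 2 * Mr * (g * Mr)) := by gcongr
      _ = 125 * (p + 1) * (s + 1) ^ 2 * (g * (K * (Mr * Lr)) ^ 2) := by ring
      _ ≤ _ := by gcongr
  have a3 : 4 * K ^ 2 * (T' ^ 2 + U' ^ 2 * T') ≤ Y ^ 2 *
      ((100 * (p + 1) ^ 2 + 500 * (p + 1) * (s + 1) ^ 2) * C1 ^ 2 * g * A ^ (2 * (s + 2))) := by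
    calc 4 * K ^ 2 * (T' ^ 2 + U' ^ 2 * T') = 4 * (K ^ 2 * T' ^ 2) + 4 * (K ^ 2 * (U' ^ 2 * T')) := by
          ring
      _ ≤ 4 * (25 * (p + 1) ^ 2 * (g * W ^ 2)) + 4 * (125 * (p + 1) * (s + 1) ^ 2 * (g * W ^ 2)) := by
          gcongr
      _ = _ := by rw [hW]; ring
  have a4 : N * (K ^ 4 * U' ^ 3 * T' ^ 3) ≤ (25 * (p + 1) * (s + 1)) ^ 3 * Nθ * W ^ 4 := by
    calc N * (K ^ 4 * U' ^ 3 * T' ^ 3) ≤ (Nθ * (Mr * Lr)) *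
          (K ^ 4 * (5 * (s + 1) * Lr) ^ 3 * (5 * (p + 1) * Mr) ^ 3) := by gcongr
      _ = (25 * (p + 1) * (s + 1)) ^ 3 * Nθ * (K * (Mr * Lr)) ^ 4 := by ring
      _ ≤ _ := by gcongr
  calc N * ((4 * K ^ 2 * (T' ^ 2 + U' ^ 2 * T')) ^ (R + 2) +
      Y ^ (2 * R) * (32 * K ^ 4 * U' ^ 3 * T' ^ 3 * Dm)) =
      N * (4 * K ^ 2 * (T' ^ 2 + U' ^ 2 * T')) ^ (R + 2) +
      Y ^ (2 * R) * (32 * Dm * (N * (K ^ 4 * U' ^ 3 * T' ^ 3))) := by ring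
    _ ≤ N * (Y ^ 2 * ((100 * (p + 1) ^ 2 + 500 * (p + 1) * (s + 1) ^ 2) * C1 ^ 2 * g *
          A ^ (2 * (s + 2)))) ^ (R + 2) +
        Y ^ (2 * R) * (32 * Dm * ((25 * (p + 1) * (s + 1)) ^ 3 * Nθ * W ^ 4)) := by
        gcongr
    _ = _ := by
        rw [hW, mul_pow (Y ^ 2), ← pow_mul Y, show 2 * (R + 2) = 2 * R + 4 by ring, pow_add Y]
        ring

end Pool.Agent.V5helper55.BF
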