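import Pool.Agent.V5helper55.BF.Core

/-!
# Bilinear families: the chain of inequalities
-/

set_option autoImplicit false

namespace Pool.Agent.V5helper55.BF

open Finset ComplexConjugate

/-- the interval `[-T, T]` -/
noncomputable def Ic (T : ℕ) : Finset ℤ := Icc (-(T : ℤ)) T

lemma card_Ic (T : ℕ) : (Ic T).card = 2 * T + 1 := by
  unfold Ic
  rw [Int.card_Icc]
  omega

variable {Q : ℕ} [NeZero Q] {ι κ : Type*} [Fintype ι] [Fintype κ]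

/-- the sum over the interval -/
noncomputable def Dk (z : ZMod Q) (T : ℕ) : ℂ := ∑ t ∈ Ic T, ch z t

lemma ch_comm (k : ZMod Q) (x y : ℤ) : ch (k * (x : ZMod Q)) y = ch (k * (y : ZMod Q)) x := by
  rw [← ch_mul, ← ch_mul, mul_comm]

lemma box (k : ZMod Q) (v a : ι → ℤ) (w b : κ → ℤ) :
    ‖∑ i, ∑ j, ch k (a i + b j + v i * w j)‖ ^ 2 ≤ (Fintype.card ι : ℝ) *
      ∑ z : κ × κ, ‖∑ i, ch (k * ((w z.1 - w z.2 : ℤ) : ZMod Q)) (v i)‖ := by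
  obtain ⟨F, hF⟩ : ∃ F : ι → ℂ, ∀ i, F i = ∑ j, ch k (b j + v i * w j) := ⟨_, fun _ => rfl⟩
  have h1 : ∑ i, ∑ j, ch k (a i + b j + v i * w j) = ∑ i, ch k (a i) * F i := by
    refine sum_congr rfl fun i _ => ?_
    rw [hF, mul_sum]
    refine sum_congr rfl fun j _ => ?_
    rw [← ch_add, add_assoc]
  have h2 : ‖∑ i, ch k (a i) * F i‖ ≤ ∑ i, ‖F i‖ := by
    refine (norm_sum_le _ _).trans (sum_le_sum fun i _ => ?_)
    rw [norm_mul, norm_ch, one_mul]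
  have h3 : ‖∑ i, ch k (a i) * F i‖ ^ 2 ≤ (Fintype.card ι : ℝ) * ∑ i, ‖F i‖ ^ 2 := by
    refine (pow_le_pow_left₀ (norm_nonneg _) h2 2).trans ?_
    have := sq_sum_le_card_mul_sum_sq (s := (univ : Finset ι)) (f := fun i => ‖F i‖)
    rwa [card_univ] at this
  rw [h1]
  refine h3.trans (mul_le_mul_of_nonneg_left ?_ (Nat.cast_nonneg _))
  have h4 : ((∑ i, ‖F i‖ ^ 2 : ℝ) : ℂ) = ∑ z : κ × κ, ch k (b z.1 - b z.2) *
      ∑ i, ch (k * ((w z.1 - w z.2 : ℤ) : ZMod Q)) (v i) := by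
    rw [Complex.ofReal_sum]
    have h5 : ∀ i ∈ (univ : Finset ι), ((‖F i‖ ^ 2 : ℝ) : ℂ) = ∑ z : κ × κ, ch k (b z.1 - b z.2) *
        ch (k * ((w z.1 - w z.2 : ℤ) : ZMod Q)) (v i) := by
      intro i _
      rw [hF, norm_sq']
      refine sum_congr rfl fun z _ => ?_
      rw [← ch_mul, ← ch_add]
      congr 1
      ring
    rw [sum_congr rfl h5, sum_comm]
    exact sum_congr rfl fun z _ => (mul_sum _ _ _).symm
  have h6 : ∑ i, ‖F i‖ ^ 2 = ‖((∑ i, ‖F i‖ ^ 2 : ℝ) : ℂ)‖ := by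
    rw [Complex.norm_real, Real.norm_of_nonneg (by positivity)]
  rw [h6, h4]
  refine (norm_sum_le _ _).trans (sum_le_sum fun z _ => ?_)
  rw [norm_mul, norm_ch, one_mul]

lemma step3 (k : ZMod Q) (v : ι → ℤ) (w : κ → ℤ) (p T : ℕ) (hT : ∀ q, |df p v q| ≤ T) :
    ∑ z : κ × κ, ‖∑ i, ch (k * ((w z.1 - w z.2 : ℤ) : ZMod Q)) (v i)‖ ^ (2 * p) ≤
      rep p v 0 * ∑ t ∈ Ic T, ‖∑ j, ch (k * (t : ZMod Q)) (w j)‖ ^ 2 := by
  have h1 : ∑ z : κ × κ, ‖∑ i, ch (k * ((w z.1 - w z.2 : ℤ) : ZMod Q)) (v i)‖ ^ (2 * p) =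
      ∑ q, ‖∑ j, ch (k * ((df p v q : ℤ) : ZMod Q)) (w j)‖ ^ 2 := by
    have h2 : ((∑ z : κ × κ, ‖∑ i, ch (k * ((w z.1 - w z.2 : ℤ) : ZMod Q)) (v i)‖ ^ (2 * p) : ℝ) : ℂ) =
        ((∑ q, ‖∑ j, ch (k * ((df p v q : ℤ) : ZMod Q)) (w j)‖ ^ 2 : ℝ) : ℂ) := by
      rw [Complex.ofReal_sum, Complex.ofReal_sum, sum_congr rfl fun z _ => norm_pow _ v p, sum_comm]
      refine sum_congr rfl fun q _ => ?_
      rw [norm_sq']
      exact sum_congr rfl fun z _ => ch_comm k _ _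
    exact_mod_cast h2
  rw [h1]
  exact group p v T hT (fun t => ‖∑ j, ch (k * (t : ZMod Q)) (w j)‖ ^ 2) (fun t => by positivity)

lemma step4 (k : ZMod Q) (w : κ → ℤ) (s U T : ℕ) (hU : ∀ q, |df s w q| ≤ U) :
    ∑ t ∈ Ic T, ‖∑ j, ch (k * (t : ZMod Q)) (w j)‖ ^ (2 * s) ≤
      rep s w 0 * ∑ u ∈ Ic U, ‖Dk (k * (u : ZMod Q)) T‖ := by
  have h1 : ((∑ t ∈ Ic T, ‖∑ j, ch (k * (t : ZMod Q)) (w j)‖ ^ (2 * s) : ℝ) : ℂ) =
      ∑ q, Dk (k * ((df s w q : ℤ) : ZMod Q)) T := by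
    rw [Complex.ofReal_sum, sum_congr rfl fun t _ => norm_pow _ w s, sum_comm]
    refine sum_congr rfl fun q _ => ?_
    unfold Dk
    exact sum_congr rfl fun t _ => ch_comm k _ _
  have h2 : ∑ t ∈ Ic T, ‖∑ j, ch (k * (t : ZMod Q)) (w j)‖ ^ (2 * s) =
      ‖((∑ t ∈ Ic T, ‖∑ j, ch (k * (t : ZMod Q)) (w j)‖ ^ (2 * s) : ℝ) : ℂ)‖ := by
    rw [Complex.norm_real, Real.norm_of_nonneg (by positivity)]
  rw [h2, h1]
  refine (norm_sum_le _ _).trans ?_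
  exact group s w U hU (fun u => ‖Dk (k * (u : ZMod Q)) T‖) (fun u => norm_nonneg _)

/-- the constant -/
noncomputable def K0 (n m Ev Ew : ℝ) (p s T : ℕ) : ℝ :=
  (n ^ (2 * (p + 1)) * (m ^ 2) ^ (2 * p + 1) * Ev) ^ (s + 1) * (2 * T + 1) ^ s * Ew

lemma chain (k : ZMod Q) (v a : ι → ℤ) (w b : κ → ℤ) (p s T U : ℕ)
    (hT : ∀ q, |df (p + 1) v q| ≤ T) (hU : ∀ q, |df (s + 1) w q| ≤ U) :
    ‖∑ i, ∑ j, ch k (a i + b j + v i * w j)‖ ^ (4 * (p + 1) * (s + 1)) ≤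
      K0 (Fintype.card ι) (Fintype.card κ) (rep (p + 1) v 0) (rep (s + 1) w 0) p s T *
        ∑ u ∈ Ic U, ‖Dk (k * (u : ZMod Q)) T‖ := by
  obtain ⟨φ, hφ⟩ : ∃ φ : ℝ, φ = ‖∑ i, ∑ j, ch k (a i + b j + v i * w j)‖ := ⟨_, rfl⟩
  have hφ0 : 0 ≤ φ := by rw [hφ]; exact norm_nonneg _
  obtain ⟨n, hn⟩ : ∃ n : ℝ, n = Fintype.card ι := ⟨_, rfl⟩
  obtain ⟨m, hm⟩ : ∃ m : ℝ, m = Fintype.card κ := ⟨_, rfl⟩
  have hn0 : 0 ≤ n := by rw [hn]; positivity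
  have hm0 : 0 ≤ m := by rw [hm]; positivity
  obtain ⟨A, hA⟩ : ∃ A : κ × κ → ℝ, ∀ z, A z = ‖∑ i, ch (k * ((w z.1 - w z.2 : ℤ) : ZMod Q)) (v i)‖ :=
    ⟨_, fun _ => rfl⟩
  obtain ⟨W, hW⟩ : ∃ W : ℤ → ℝ, ∀ t, W t = ‖∑ j, ch (k * (t : ZMod Q)) (w j)‖ := ⟨_, fun _ => rfl⟩
  have h1 : φ ^ 2 ≤ n * ∑ z, A z := by
    have := box k v a w b
    rw [← hφ, ← hn] at this
    simpa only [hA] using this
  have h2 : (∑ z, A z) ^ (2 * p + 1 + 1) ≤ (m ^ 2) ^ (2 * p + 1) * ∑ z, A z ^ (2 * p + 1 + 1) := by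
    have := pow_sum_le_card_mul_sum_pow (s := (univ : Finset (κ × κ))) (f := A)
      (fun z _ => by rw [hA]; exact norm_nonneg _) (2 * p + 1)
    rw [card_univ, Fintype.card_prod] at this
    push_cast at this
    rw [← hm, ← sq] at this
    exact this
  have h3 : ∑ z, A z ^ (2 * p + 1 + 1) ≤ rep (p + 1) v 0 * ∑ t ∈ Ic T, W t ^ 2 := by
    have := step3 k v w (p + 1) T hT
    simpa only [hA, hW, show 2 * (p + 1) = 2 * p + 1 + 1 by ring] using this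
  have h4 : (∑ t ∈ Ic T, W t ^ 2) ^ (s + 1) ≤ (2 * T + 1) ^ s * ∑ t ∈ Ic T, (W t ^ 2) ^ (s + 1) := by
    have := pow_sum_le_card_mul_sum_pow (s := Ic T) (f := fun t => W t ^ 2)
      (fun t _ => by positivity) s
    rw [card_Ic] at this
    push_cast at this
    exact this
  have h5 : ∑ t ∈ Ic T, (W t ^ 2) ^ (s + 1) ≤
      rep (s + 1) w 0 * ∑ u ∈ Ic U, ‖Dk (k * (u : ZMod Q)) T‖ := by
    have := step4 k w (s + 1) U T hU
    simpa only [hW, ← pow_mul] using this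
  have hE1 : (0 : ℝ) ≤ rep (p + 1) v 0 := Nat.cast_nonneg _
  have hS2 : 0 ≤ ∑ t ∈ Ic T, W t ^ 2 := sum_nonneg fun t _ => by positivity
  have h6 : (φ ^ 2) ^ (2 * (p + 1)) ≤ n ^ (2 * (p + 1)) * (m ^ 2) ^ (2 * p + 1) * rep (p + 1) v 0 *
      ∑ t ∈ Ic T, W t ^ 2 := by
    calc (φ ^ 2) ^ (2 * (p + 1)) ≤ (n * ∑ z, A z) ^ (2 * (p + 1)) :=
          pow_le_pow_left₀ (by positivity) h1 _
      _ = n ^ (2 * (p + 1)) * (∑ z, A z) ^ (2 * p + 1 + 1) := by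
          rw [mul_pow, show 2 * (p + 1) = 2 * p + 1 + 1 by ring]
      _ ≤ n ^ (2 * (p + 1)) * ((m ^ 2) ^ (2 * p + 1) *
            (rep (p + 1) v 0 * ∑ t ∈ Ic T, W t ^ 2)) := by
          refine mul_le_mul_of_nonneg_left (h2.trans ?_) (by positivity)
          exact mul_le_mul_of_nonneg_left h3 (by positivity)
      _ = _ := by ring
  have h7 : φ ^ (4 * (p + 1) * (s + 1)) = ((φ ^ 2) ^ (2 * (p + 1))) ^ (s + 1) := by
    rw [← pow_mul, ← pow_mul]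
    congr 1
    ring
  rw [← hφ, ← hn, ← hm, h7]
  unfold K0
  calc ((φ ^ 2) ^ (2 * (p + 1))) ^ (s + 1) ≤ (n ^ (2 * (p + 1)) * (m ^ 2) ^ (2 * p + 1) *
        rep (p + 1) v 0 * ∑ t ∈ Ic T, W t ^ 2) ^ (s + 1) := pow_le_pow_left₀ (by positivity) h6 _
    _ = (n ^ (2 * (p + 1)) * (m ^ 2) ^ (2 * p + 1) * rep (p + 1) v 0) ^ (s + 1) *
        (∑ t ∈ Ic T, W t ^ 2) ^ (s + 1) := mul_pow _ _ _
    _ ≤ (n ^ (2 * (p + 1)) * (m ^ 2) ^ (2 * p + 1) * rep (p + 1) v 0) ^ (s + 1) *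
        ((2 * T + 1) ^ s * (rep (s + 1) w 0 * ∑ u ∈ Ic U, ‖Dk (k * (u : ZMod Q)) T‖)) := by
        refine mul_le_mul_of_nonneg_left (h4.trans ?_) (by positivity)
        exact mul_le_mul_of_nonneg_left h5 (by positivity)
    _ = _ := by ring

/-- the set of the triples `(u, t, t')`, `u ≠ 0`, `t ≠ t'` -/
noncomputable def Xs (T U : ℕ) : Finset (ℤ × ℤ × ℤ) := ((Ic U).erase 0) ×ˢ (Ic T).offDiag

/-- the value `u (t - t')` -/
def vl (x : ℤ × ℤ × ℤ) : ℤ := x.1 * (x.2.1 - x.2.2)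

/-- the off-diagonal sum -/
noncomputable def Gk (k : ZMod Q) (T U : ℕ) : ℂ := ∑ x ∈ Xs T U, ch k (vl x)

lemma zero_mem (U : ℕ) : (0 : ℤ) ∈ Ic U := by
  unfold Ic
  rw [mem_Icc]
  constructor <;> omega

lemma Dk_zero (T : ℕ) : ‖Dk (0 : ZMod Q) T‖ = 2 * T + 1 := by
  unfold Dk
  have h : ∀ t ∈ Ic T, ch (0 : ZMod Q) t = 1 := by
    intro t _
    unfold ch
    rw [zero_mul, AddChar.map_zero_eq_one]
  rw [sum_congr rfl h, sum_const, card_Ic, nsmul_eq_mul, mul_one, Complex.norm_natCast]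
  push_cast
  ring

lemma sq_Dk (z : ZMod Q) (T : ℕ) :
    ((‖Dk z T‖ ^ 2 : ℝ) : ℂ) = (2 * T + 1 : ℝ) + ∑ y ∈ (Ic T).offDiag, ch z (y.1 - y.2) := by
  unfold Dk
  rw [norm_sq (Ic T) z (fun t => t)]
  rw [← diag_union_offDiag, sum_union (disjoint_diag_offDiag _)]
  congr 1
  rw [sum_diag]
  have h : ∀ t ∈ Ic T, ch z (t - t) = 1 := by
    intro t _
    rw [sub_self, ch_zero]
  rw [sum_congr rfl h, sum_const, card_Ic, nsmul_eq_mul, mul_one]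
  push_cast
  ring

lemma sum_sq (k : ZMod Q) (T U : ℕ) :
    ∑ u ∈ (Ic U).erase 0, ‖Dk (k * (u : ZMod Q)) T‖ ^ 2 ≤ (2 * U + 1) * (2 * T + 1) + ‖Gk k T U‖ := by
  have h1 : ((∑ u ∈ (Ic U).erase 0, ‖Dk (k * (u : ZMod Q)) T‖ ^ 2 : ℝ) : ℂ) =
      ((2 * U * (2 * T + 1) : ℝ) : ℂ) + Gk k T U := by
    rw [Complex.ofReal_sum, sum_congr rfl fun u _ => sq_Dk _ T, sum_add_distrib, sum_const,
      card_erase_of_mem (zero_mem U), card_Ic, nsmul_eq_mul]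
    congr 1
    · push_cast
      simp
    · unfold Gk Xs
      rw [sum_product]
      refine sum_congr rfl fun u _ => sum_congr rfl fun y _ => ?_
      rw [← ch_mul]
      rfl
  have h2 : ∑ u ∈ (Ic U).erase 0, ‖Dk (k * (u : ZMod Q)) T‖ ^ 2 =
      ‖((∑ u ∈ (Ic U).erase 0, ‖Dk (k * (u : ZMod Q)) T‖ ^ 2 : ℝ) : ℂ)‖ := by
    rw [Complex.norm_real, Real.norm_of_nonneg (by positivity)]
  rw [h2, h1]
  refine (norm_add_le _ _).trans (add_le_add ?_ le_rfl)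
  rw [Complex.norm_real, Real.norm_of_nonneg (by positivity)]
  have : (0 : ℝ) ≤ T := Nat.cast_nonneg _
  nlinarith

lemma fibre (T U : ℕ) (c : ℤ) (hc : c ≠ 0) :
    ((Xs T U).filter (fun x => vl x = c)).card ≤ 2 * c.natAbs.divisors.card * (2 * T + 1) := by
  have h1 : 2 * c.natAbs.divisors.card * (2 * T + 1) =
      ((c.natAbs.divisors ×ˢ (univ : Finset Bool)) ×ˢ Ic T).card := by
    rw [card_product, card_product, card_Ic, card_univ, Fintype.card_bool]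
    ring
  rw [h1]
  refine card_le_card_of_injOn (fun x => ((x.1.natAbs, decide (0 < x.1)), x.2.2)) ?_ ?_
  · intro x hx
    rw [mem_coe, mem_filter] at hx
    obtain ⟨hx1, hx2⟩ := hx
    unfold Xs at hx1
    rw [mem_product, mem_offDiag] at hx1
    rw [mem_coe, mem_product, mem_product, Nat.mem_divisors]
    refine ⟨⟨⟨?_, ?_⟩, mem_univ _⟩, hx1.2.2.1⟩
    · rw [← hx2, vl, Int.natAbs_mul]
      exact dvd_mul_right _ _
    · rwa [Int.natAbs_ne_zero]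
  · intro x hx y hy hxy
    rw [mem_coe, mem_filter] at hx hy
    simp only [Prod.mk.injEq] at hxy
    obtain ⟨⟨e1, e2⟩, e3⟩ := hxy
    have e4 : x.1 = y.1 := by
      rw [decide_eq_decide] at e2
      have hx1 := hx.1
      unfold Xs at hx1
      rw [mem_product, mem_erase] at hx1
      have := hx1.1.1
      omega
    have e5 : x.1 ≠ 0 := by
      have hx1 := hx.1
      unfold Xs at hx1
      rw [mem_product, mem_erase] at hx1
      exact hx1.1.1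
    have e6 : x.1 * (x.2.1 - x.2.2) = x.1 * (y.2.1 - y.2.2) := by
      have a1 := hx.2
      have a2 := hy.2
      unfold vl at a1 a2
      rw [a1, e4, a2]
    have e7 := mul_left_cancel₀ e5 e6
    ext1
    · exact e4
    · ext1
      · omega
      · exact e3

lemma Gk_moment (T U Dm : ℕ) (hQ : 2 * (U * (2 * T)) < Q)
    (hD : ∀ c : ℕ, c ≠ 0 → c ≤ U * (2 * T) → c.divisors.card ≤ Dm) :
    ∑ k : ZMod Q, ‖Gk k T U‖ ^ 2 ≤
      Q * ((2 * U + 1) * (2 * T + 1) ^ 2 * (2 * Dm * (2 * T + 1))) := by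
  have hb : ∀ x ∈ Xs T U, (vl x).natAbs ≤ U * (2 * T) ∧ vl x ≠ 0 := by
    intro x hx
    unfold Xs Ic at hx
    rw [mem_product, mem_erase, mem_offDiag, mem_Icc, mem_Icc, mem_Icc] at hx
    obtain ⟨⟨h1, h2⟩, h3, h4, h5⟩ := hx
    unfold vl
    constructor
    · rw [Int.natAbs_mul]
      apply Nat.mul_le_mul <;> omega
    · exact mul_ne_zero h1 (sub_ne_zero.2 h5)
  have h1 : ((∑ k : ZMod Q, ‖Gk k T U‖ ^ 2 : ℝ) : ℂ) =
      (((Q : ℝ) * (((Xs T U) ×ˢ (Xs T U)).filter (fun z => vl z.1 - vl z.2 = 0)).card : ℝ) : ℂ) := by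
    rw [Complex.ofReal_sum]
    unfold Gk
    rw [sum_congr rfl fun k _ => norm_sq (Xs T U) k vl, count]
    · push_cast
      rfl
    · intro z hz
      rw [mem_product] at hz
      have a1 := (hb _ hz.1).1
      have a2 := (hb _ hz.2).1
      rw [Int.abs_eq_natAbs]
      norm_cast
      omega
  have h2 : ∑ k : ZMod Q, ‖Gk k T U‖ ^ 2 =
      (Q : ℝ) * (((Xs T U) ×ˢ (Xs T U)).filter (fun z => vl z.1 - vl z.2 = 0)).card := by
    exact_mod_cast h1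
  rw [h2]
  refine mul_le_mul_of_nonneg_left ?_ (Nat.cast_nonneg _)
  have h3 : (((Xs T U) ×ˢ (Xs T U)).filter (fun z => vl z.1 - vl z.2 = 0)).card ≤
      (Xs T U).card * (2 * Dm * (2 * T + 1)) := by
    rw [card_filter, sum_product, ← smul_eq_mul]
    refine sum_le_card_nsmul _ _ _ fun x hx => ?_
    rw [← card_filter]
    obtain ⟨b1, b2⟩ := hb x hx
    have h4 := fibre T U (vl x) b2
    have h5 : (Xs T U).filter (fun y => vl x - vl y = 0) = (Xs T U).filter (fun y => vl y = vl x) := by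
      ext y
      simp only [mem_filter, and_congr_right_iff]
      intro _
      constructor <;> intro h <;> omega
    rw [h5]
    refine h4.trans (Nat.mul_le_mul_right _ (Nat.mul_le_mul_left _ ?_))
    exact hD _ (Int.natAbs_ne_zero.2 b2) b1
  have h6 : (Xs T U).card ≤ (2 * U + 1) * (2 * T + 1) ^ 2 := by
    unfold Xs
    rw [card_product, offDiag_card, card_erase_of_mem (zero_mem U), card_Ic, card_Ic]
    apply Nat.mul_le_mul (by omega)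
    rw [sq]
    omega
  have h7 : (((Xs T U) ×ˢ (Xs T U)).filter (fun z => vl z.1 - vl z.2 = 0)).card ≤
      (2 * U + 1) * (2 * T + 1) ^ 2 * (2 * Dm * (2 * T + 1)) :=
    h3.trans (Nat.mul_le_mul_right _ h6)
  exact_mod_cast h7

/-- the elementary case distinction -/
lemma split_ineq (y K T' U' Z g Ω τ : ℝ) (R : ℕ) (hy : 0 ≤ y) (_ : 0 ≤ K) (hT : 0 ≤ T') (_ : 0 ≤ U')
    (_ : 0 ≤ Z) (_ : 0 ≤ g) (hyP : y ≤ Ω) (h1 : y ≤ K * (T' + Z)) (h2 : Z ^ 2 ≤ U' * (U' * T' + g))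
    (hτ : τ = 4 * K ^ 2 * (T' ^ 2 + U' ^ 2 * T')) :
    y ^ (2 * (R + 2)) ≤ τ ^ (R + 2) + Ω ^ (2 * R) * (16 * K ^ 4 * U' ^ 2 * g ^ 2) := by
  have hP : 0 ≤ Ω := hy.trans hyP
  have hτ0 : 0 ≤ τ := by rw [hτ]; positivity
  have h3 : y ^ 2 ≤ 2 * K ^ 2 * (T' ^ 2 + U' * (U' * T' + g)) := by
    calc y ^ 2 ≤ (K * (T' + Z)) ^ 2 := pow_le_pow_left₀ hy h1 2
      _ ≤ 2 * K ^ 2 * (T' ^ 2 + Z ^ 2) := by nlinarith [mul_nonneg (sq_nonneg K) (sq_nonneg (T' - Z))]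
      _ ≤ _ := by
          apply mul_le_mul_of_nonneg_left _ (by positivity)
          linarith
  rcases le_or_gt (y ^ 2) τ with h | h
  · have h4 : y ^ (2 * (R + 2)) ≤ τ ^ (R + 2) := by
      rw [pow_mul]
      exact pow_le_pow_left₀ (by positivity) h _
    have : 0 ≤ Ω ^ (2 * R) * (16 * K ^ 4 * U' ^ 2 * g ^ 2) := by positivity
    linarith
  · have h4 : y ^ 2 ≤ 4 * K ^ 2 * U' * g := by
      rw [hτ] at h
      nlinarith
    have h5 : y ^ 4 ≤ 16 * K ^ 4 * U' ^ 2 * g ^ 2 := by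
      calc y ^ 4 = (y ^ 2) ^ 2 := by ring
        _ ≤ (4 * K ^ 2 * U' * g) ^ 2 := pow_le_pow_left₀ (by positivity) h4 2
        _ = _ := by ring
    have h6 : y ^ (2 * (R + 2)) = y ^ (2 * R) * y ^ 4 := by
      rw [← pow_add]
      congr 1
    rw [h6]
    have h7 : y ^ (2 * R) * y ^ 4 ≤ Ω ^ (2 * R) * (16 * K ^ 4 * U' ^ 2 * g ^ 2) :=
      mul_le_mul (pow_le_pow_left₀ hy hyP _) h5 (by positivity) (by positivity)
    have : 0 ≤ τ ^ (R + 2) := by positivity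
    linarith

/-- **The energy of a bilinear family.** -/
theorem energy_bound (v a : ι → ℤ) (w b : κ → ℤ) (p s R T U Dm : ℕ)
    (hT : ∀ q, |df (p + 1) v q| ≤ T) (hU : ∀ q, |df (s + 1) w q| ≤ U)
    (hD : ∀ c : ℕ, c ≠ 0 → c ≤ U * (2 * T) → c.divisors.card ≤ Dm) (K : ℝ)
    (hK : K = K0 (Fintype.card ι) (Fintype.card κ) (rep (p + 1) v 0) (rep (s + 1) w 0) p s T) :
    (rep (2 * (p + 1) * (s + 1) * (2 * (R + 2))) (fun z : ι × κ => a z.1 + b z.2 + v z.1 * w z.2) 0 : ℝ) ≤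
      (4 * K ^ 2 * ((2 * T + 1) ^ 2 + (2 * U + 1) ^ 2 * (2 * T + 1))) ^ (R + 2) +
        ((Fintype.card ι : ℝ) * Fintype.card κ) ^ (4 * (p + 1) * (s + 1) * (2 * R)) *
          (32 * K ^ 4 * (2 * U + 1) ^ 3 * (2 * T + 1) ^ 3 * Dm) := by
  obtain ⟨P, hP⟩ : ∃ P : ℕ, P = 2 * (p + 1) * (s + 1) * (2 * (R + 2)) := ⟨_, rfl⟩
  obtain ⟨h, hh⟩ : ∃ h : ι × κ → ℤ, h = fun z : ι × κ => a z.1 + b z.2 + v z.1 * w z.2 := ⟨_, rfl⟩
  obtain ⟨Q, hQ⟩ : ∃ Q : ℕ, Q = ∑ q, (df P h q).natAbs + 2 * (U * (2 * T)) + 1 := ⟨_, rfl⟩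
  have : NeZero Q := ⟨by omega⟩
  have hQ0 : (0 : ℝ) < Q := by exact_mod_cast Nat.pos_of_ne_zero (NeZero.ne Q)
  have hb : ∀ q, |df P h q| < Q := by
    intro q
    have h1 : (df P h q).natAbs ≤ ∑ q, (df P h q).natAbs :=
      single_le_sum (f := fun q => (df P h q).natAbs) (fun _ _ => Nat.zero_le _) (mem_univ q)
    rw [Int.abs_eq_natAbs]
    norm_cast
    omega
  have hm := moment Q P h hb
  rw [← hP, ← hh]
  obtain ⟨n, hn⟩ : ∃ n : ℝ, n = Fintype.card ι := ⟨_, rfl⟩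
  obtain ⟨m, hm'⟩ : ∃ m : ℝ, m = Fintype.card κ := ⟨_, rfl⟩
  rw [← hn, ← hm'] at hK ⊢
  have hn0 : 0 ≤ n := by rw [hn]; positivity
  have hm0 : 0 ≤ m := by rw [hm']; positivity
  have hK0 : 0 ≤ K := by
    rw [hK]
    unfold K0
    positivity
  have hG := Gk_moment (Q := Q) T U Dm (by omega) hD
  have hpt : ∀ k : ZMod Q, ‖∑ z, ch k (h z)‖ ^ (2 * P) ≤
      (4 * K ^ 2 * ((2 * T + 1) ^ 2 + (2 * U + 1) ^ 2 * (2 * T + 1))) ^ (R + 2) +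
        (n * m) ^ (4 * (p + 1) * (s + 1) * (2 * R)) *
          (16 * K ^ 4 * (2 * U + 1) ^ 2 * ‖Gk k T U‖ ^ 2) := by
    intro k
    have e1 : ∑ z, ch k (h z) = ∑ i, ∑ j, ch k (a i + b j + v i * w j) := by
      rw [hh, Fintype.sum_prod_type]
    have e2 : ‖∑ z, ch k (h z)‖ ≤ n * m := by
      refine (norm_sum_le _ _).trans ?_
      rw [sum_congr rfl fun z _ => norm_ch k (h z), sum_const, card_univ, Fintype.card_prod,
        nsmul_eq_mul, mul_one, hn, hm']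
      push_cast
      rfl
    have e3 := chain k v a w b p s T U hT hU
    rw [← e1, ← hn, ← hm', ← hK] at e3
    have e4 : ∑ u ∈ Ic U, ‖Dk (k * (u : ZMod Q)) T‖ =
        (2 * T + 1) + ∑ u ∈ (Ic U).erase 0, ‖Dk (k * (u : ZMod Q)) T‖ := by
      rw [← add_sum_erase _ _ (zero_mem U)]
      congr 1
      rw [Int.cast_zero, mul_zero, Dk_zero]
    rw [e4] at e3
    have e5 : (∑ u ∈ (Ic U).erase 0, ‖Dk (k * (u : ZMod Q)) T‖) ^ 2 ≤
        (2 * U + 1) * ((2 * U + 1) * (2 * T + 1) + ‖Gk k T U‖) := by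
      have c1 := sq_sum_le_card_mul_sum_sq (s := (Ic U).erase 0)
        (f := fun u => ‖Dk (k * (u : ZMod Q)) T‖)
      refine c1.trans ?_
      apply mul_le_mul _ (sum_sq k T U) (by positivity) (by positivity)
      rw [card_erase_of_mem (zero_mem U), card_Ic]
      push_cast
      simp
    have e6 := split_ineq (‖∑ z, ch k (h z)‖ ^ (4 * (p + 1) * (s + 1))) K (2 * T + 1) (2 * U + 1)
      (∑ u ∈ (Ic U).erase 0, ‖Dk (k * (u : ZMod Q)) T‖) ‖Gk k T U‖ ((n * m) ^ (4 * (p + 1) * (s + 1)))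
      _ R (by positivity) hK0 (by positivity) (by positivity)
      (sum_nonneg fun u _ => norm_nonneg _) (norm_nonneg _)
      (pow_le_pow_left₀ (norm_nonneg _) e2 _) e3 e5 rfl
    rw [← pow_mul, ← pow_mul] at e6
    rw [hP, show 2 * (2 * (p + 1) * (s + 1) * (2 * (R + 2))) = 4 * (p + 1) * (s + 1) * (2 * (R + 2)) by
      ring]
    exact e6
  have hsum := sum_le_sum fun k (_ : k ∈ (univ : Finset (ZMod Q))) => hpt k
  rw [hm, sum_add_distrib, sum_const, card_univ, ZMod.card, nsmul_eq_mul, ← mul_sum, ← mul_sum] at hsum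
  obtain ⟨Ω, hΩ⟩ : ∃ Ω : ℝ, Ω = (n * m) ^ (4 * (p + 1) * (s + 1) * (2 * R)) := ⟨_, rfl⟩
  rw [← hΩ] at hsum ⊢
  have hΩ0 : 0 ≤ Ω := by rw [hΩ]; positivity
  have hlast : Ω * (16 * K ^ 4 * (2 * U + 1) ^ 2 * ∑ k : ZMod Q, ‖Gk k T U‖ ^ 2) ≤
      Ω * (16 * K ^ 4 * (2 * U + 1) ^ 2 * (Q * ((2 * U + 1) * (2 * T + 1) ^ 2 * (2 * Dm * (2 * T + 1))))) := by
    gcongr
  have hfin : (Q : ℝ) * rep P h 0 ≤ Q * ((4 * K ^ 2 * ((2 * T + 1) ^ 2 + (2 * U + 1) ^ 2 * (2 * T + 1))) ^ (R + 2) +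
      Ω * (32 * K ^ 4 * (2 * U + 1) ^ 3 * (2 * T + 1) ^ 3 * Dm)) := by
    refine hsum.trans ((add_le_add le_rfl hlast).trans (le_of_eq ?_))
    ring
  exact le_of_mul_le_mul_left hfin hQ0

end Pool.Agent.V5helper55.BF
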