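import Pool.Agent.V5helper55.BF.Asy
import Pool.Agent.Results.MP_122e00_nt.PowerSavingShifts

/-!
# Bilinear families: the closure theorem and polynomial values
-/

set_option autoImplicit false

namespace Pool.Agent.V5helper55.BF

open Finset Polynomial
open Pool.Agent.Results.MP_122e00_nt.PowerSavingShifts (energy Asymp)

lemma energy_eq (p : ℕ) {ι : Type} [Fintype ι] (v : ι → ℤ) : energy p v = rep p v 0 := by
  unfold energy rep
  rw [Nat.card_eq_fintype_card, Fintype.card_subtype]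
  congr 1
  ext q
  simp only [mem_filter, mem_univ, true_and]
  unfold df
  exact sub_eq_zero.symm

lemma rep_zero {ι : Type} [Fintype ι] (v : ι → ℤ) : rep 0 v 0 = 1 := by
  simp [rep, df]

lemma energy_comp (p : ℕ) {ι ι₂ : Type} [Fintype ι] [Fintype ι₂] (e : ι → ι₂) (he : Function.Injective e)
    (s : ι₂ → ℤ) : energy p (fun i => s (e i)) ≤ energy p s := by
  unfold energy
  have : Finite {q : (Fin p → ι₂) × (Fin p → ι₂) // ∑ j, s (q.1 j) = ∑ j, s (q.2 j)} := inferInstance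
  refine Nat.card_le_card_of_injective
    (fun q => ⟨(fun j => e (q.1.1 j), fun j => e (q.1.2 j)), q.2⟩) ?_
  intro q q' h
  simp only [Subtype.mk.injEq, Prod.mk.injEq] at h
  apply Subtype.ext
  apply Prod.ext
  · funext j
    exact he (congrFun h.1 j)
  · funext j
    exact he (congrFun h.2 j)

/-- `v` is a family of integers of absolute value at most `M` whose energy of order `p` is at most `C` times
the least possible order of magnitude. -/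
def Small (p : ℕ) (C : ℝ) (M : ℕ) {ι : Type} [Fintype ι] (v : ι → ℤ) : Prop :=
  (∀ i, |v i| ≤ M) ∧ (energy p v : ℝ) * M ≤ C * (Fintype.card ι : ℝ) ^ (2 * p)

/-- the conditions on the scales -/
def Scales (κ θ : ℝ) (B N M L : ℕ) : Prop :=
  (N : ℝ) ^ κ ≤ M ∧ (N : ℝ) ^ κ ≤ L ∧ M ≤ B * N ∧ L ≤ B * N ∧ (N : ℝ) ^ (1 - θ) ≤ M * L

theorem closure (p q B : ℕ) (κ : ℝ) (hκ : 0 < κ) : ∃ P : ℕ, ∀ ε : ℝ, 0 < ε → ∃ θ₀ : ℝ, 0 < θ₀ ∧
    ∀ θ : ℝ, 0 < θ → θ ≤ θ₀ → ∃ N₀ : ℕ, ∀ N : ℕ, N₀ ≤ N → ∀ (ι ι' : Type) [Fintype ι] [Fintype ι']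
      (M L : ℕ) (v a : ι → ℤ) (w b : ι' → ℤ), Scales κ θ B N M L → Small p ((N : ℝ) ^ θ) M v →
      Small q ((N : ℝ) ^ θ) L w →
      (energy P (fun z : ι × ι' => a z.1 + b z.2 + v z.1 * w z.2) : ℝ) * N ≤
        (N : ℝ) ^ ε * (Fintype.card (ι × ι') : ℝ) ^ (2 * P) := by
  have hzero : ∀ θ : ℝ, 0 < θ → θ ≤ κ / 2 → ∀ N : ℕ, 2 ≤ N → ∀ (ι : Type) [Fintype ι] (M : ℕ) (v : ι → ℤ),
      (N : ℝ) ^ κ ≤ M → Small 0 ((N : ℝ) ^ θ) M v → False := by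
    intro θ hθ hθκ N hN ι _ M v hM hv
    have h1 := hv.2
    rw [energy_eq, rep_zero] at h1
    simp only [Nat.cast_one, one_mul, mul_zero, pow_zero, mul_one] at h1
    have hN1 : (1 : ℝ) < N := by exact_mod_cast (by omega : 1 < N)
    have h2 : (N : ℝ) ^ θ < (N : ℝ) ^ κ := Real.rpow_lt_rpow_of_exponent_lt hN1 (by linarith)
    linarith
  rcases Nat.eq_zero_or_pos p with rfl | hp
  · refine ⟨0, fun ε _ => ⟨κ / 2, by positivity, fun θ hθ hθκ => ⟨2, fun N hN ι ι' _ _ M L v a w b hs hv hw => ?_⟩⟩⟩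
    exact (hzero θ hθ hθκ N hN ι M v hs.1 hv).elim
  rcases Nat.eq_zero_or_pos q with rfl | hq
  · refine ⟨0, fun ε _ => ⟨κ / 2, by positivity, fun θ hθ hθκ => ⟨2, fun N hN ι ι' _ _ M L v a w b hs hv hw => ?_⟩⟩⟩
    exact (hzero θ hθ hθκ N hN ι' L w hs.2.1 hw).elim
  obtain ⟨p, rfl⟩ : ∃ p', p = p' + 1 := ⟨p - 1, by omega⟩
  obtain ⟨s, rfl⟩ : ∃ s', q = s' + 1 := ⟨q - 1, by omega⟩
  obtain ⟨P, hP⟩ := closure_pos p s B κ hκ
  refine ⟨P, fun ε hε => ?_⟩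
  obtain ⟨θ₀, hθ₀, h1⟩ := hP ε hε
  refine ⟨θ₀, hθ₀, fun θ hθ hθ' => ?_⟩
  obtain ⟨N₀, h2⟩ := h1 θ hθ hθ'
  refine ⟨N₀, fun N hN ι ι' _ _ M L v a w b hs hv hw => ?_⟩
  have h3 := h2 N hN ι ι' M L v a w b hs.1 hs.2.1 hs.2.2.1 hs.2.2.2.1 hs.2.2.2.2 hv.1 hw.1
    (by rw [← energy_eq]; exact hv.2) (by rw [← energy_eq]; exact hw.2)
  rw [energy_eq, Fintype.card_prod]
  push_cast
  exact h3

lemma Asymp_mono (r N : ℕ) (P : ℕ → ℝ[X]) (T : ℤ → ℝ[X]) (θ θ' η : ℝ) (h : ℤ) (hN : 1 ≤ N) (hθ : θ' ≤ θ)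
    (hg : Asymp r N P T θ η h) : Asymp r N P T θ' η h := by
  intro x hx
  have hN1 : (1 : ℝ) ≤ N := by exact_mod_cast hN
  exact ⟨(hg x hx).1.trans (Real.rpow_le_rpow_of_exponent_le hN1 (by linarith)), (hg x hx).2⟩

/-- polynomial values at the elements of a dense set -/
theorem poly_small (f : ℤ[X]) (hf : 1 ≤ f.natDegree) (B : ℕ) (κ : ℝ) (hκ : 0 < κ) :
    ∃ p b : ℕ, 1 ≤ b ∧ ∀ θ₁ : ℝ, 0 < θ₁ → ∃ θ₀ : ℝ, 0 < θ₀ ∧ ∀ θ : ℝ, 0 < θ → θ ≤ θ₀ → ∃ N₀ : ℕ, ∀ N : ℕ, N₀ ≤ N → ∀ X : ℕ,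
      (N : ℝ) ^ κ ≤ X → X ^ f.natDegree ≤ B * N → ∀ A : Finset ℕ, A ⊆ Icc 1 X → (N : ℝ) ^ (-θ) * X ≤ A.card →
      Small p ((N : ℝ) ^ θ₁) (b * X ^ f.natDegree) (fun i : A => f.eval ((i : ℕ) : ℤ)) := by
  obtain ⟨p, B', M0, -, hpoly⟩ := Pool.Agent.TH212.PL.poly_hyp f hf 0
  refine ⟨p, B' + 1, by omega, fun θ₁ hθ₁ => ⟨θ₁ / (4 * (p + 1)), by positivity, fun θ hθ hθ' => ?_⟩⟩
  obtain ⟨n1, h1⟩ := ev M0 κ hκ
  obtain ⟨n2, h2⟩ := ev (((B' : ℝ) + 1) * (B + 4 / θ₁)) (θ₁ / 4) (by positivity)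
  refine ⟨n1 + n2 + 1, fun N hN X hX hXB A hA hAc => ?_⟩
  have hN1 : (1 : ℝ) ≤ N := by exact_mod_cast (by omega : 1 ≤ N)
  have hN0 : (0 : ℝ) < N := by linarith
  have hXM : M0 ≤ X := by
    have := (h1 N (by omega)).trans hX
    exact_mod_cast this
  have hX1 : 1 ≤ X := by
    have : (1 : ℝ) ≤ X := (Real.one_le_rpow hN1 hκ.le).trans hX
    exact_mod_cast this
  obtain ⟨hb, hE⟩ := hpoly X hXM 0 (by simp)
  have hin : ∀ i : A, 1 ≤ (i : ℕ) ∧ (i : ℕ) ≤ X := fun i => mem_Icc.1 (hA i.2)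
  let e : A → Fin X := fun i => ⟨(i : ℕ) - 1, by have := hin i; omega⟩
  have he : Function.Injective e := by
    intro i j hij
    have h3 : (i : ℕ) - 1 = (j : ℕ) - 1 := congrArg Fin.val hij
    have := hin i
    have := hin j
    exact Subtype.ext (by omega)
  obtain ⟨g, hg⟩ : ∃ g : Fin X → ℤ, g = fun i : Fin X => 0 + f.eval (((i : ℕ) + 1 : ℕ) : ℤ) := ⟨_, rfl⟩
  have hcomp : ∀ i : A, f.eval ((i : ℕ) : ℤ) = g (e i) := by
    intro i
    have h3 : ((e i : ℕ) + 1) = (i : ℕ) := by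
      have := hin i
      change (i : ℕ) - 1 + 1 = i
      omega
    rw [hg]
    simp only [zero_add]
    rw [h3]
  rw [← hg] at hE
  have hfun : (fun i : A => f.eval ((i : ℕ) : ℤ)) = fun i : A => g (e i) := funext hcomp
  rw [hfun]
  constructor
  · intro i
    have h5 : |g (e i)| ≤ B' * (X ^ f.natDegree : ℕ) := by
      rw [hg]
      exact hb (e i)
    refine h5.trans ?_
    push_cast
    have : (0 : ℤ) ≤ (X : ℤ) ^ f.natDegree := by positivity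
    nlinarith
  · have h4 : (energy p (fun i : A => g (e i)) : ℝ) ≤ (energy p g : ℝ) := by
      exact_mod_cast energy_comp p e he g
    have hE' : (energy p g : ℝ) * (X ^ f.natDegree : ℕ) ≤
        Real.log (X ^ f.natDegree : ℕ) * (X : ℝ) ^ (2 * p) := by
      rw [pow_one, Fintype.card_fin] at hE
      exact hE
    rw [Fintype.card_coe]
    have hXk0 : (0 : ℝ) < ((X ^ f.natDegree : ℕ) : ℝ) := by
      exact_mod_cast (by positivity : 0 < X ^ f.natDegree)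
    have hlog : Real.log (X ^ f.natDegree : ℕ) ≤ (B + 4 / θ₁) * (N : ℝ) ^ (θ₁ / 4) := by
      have c1 : ((X ^ f.natDegree : ℕ) : ℝ) ≤ ((B : ℝ) + 1) * N := by
        have : ((X ^ f.natDegree : ℕ) : ℝ) ≤ ((B * N : ℕ) : ℝ) := by exact_mod_cast hXB
        push_cast at this ⊢
        linarith
      have c2 : Real.log (X ^ f.natDegree : ℕ) ≤ Real.log (B + 1) + Real.log N := by
        rw [← Real.log_mul (by positivity) hN0.ne']
        exact Real.log_le_log hXk0 c1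
      have c3 : Real.log (B + 1) ≤ B := by
        have := Real.log_le_sub_one_of_pos (show (0 : ℝ) < B + 1 by positivity)
        linarith
      have c4 : Real.log N ≤ (N : ℝ) ^ (θ₁ / 4) / (θ₁ / 4) := Real.log_le_rpow_div hN0.le (by positivity)
      have c5 : (1 : ℝ) ≤ (N : ℝ) ^ (θ₁ / 4) := Real.one_le_rpow hN1 (by positivity)
      have c6 : (N : ℝ) ^ (θ₁ / 4) / (θ₁ / 4) = 4 / θ₁ * (N : ℝ) ^ (θ₁ / 4) := by
        field_simp
      rw [c6] at c4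
      have c7 : (B : ℝ) ≤ B * (N : ℝ) ^ (θ₁ / 4) := le_mul_of_one_le_right (Nat.cast_nonneg _) c5
      linarith
    have hXA : (X : ℝ) ≤ (N : ℝ) ^ θ * A.card := by
      calc (X : ℝ) = (N : ℝ) ^ θ * ((N : ℝ) ^ (-θ) * X) := by
            rw [← mul_assoc, ← Real.rpow_add hN0, add_neg_cancel, Real.rpow_zero, one_mul]
        _ ≤ _ := by gcongr
    have hX2 : (X : ℝ) ^ (2 * p) ≤ (N : ℝ) ^ (θ₁ / 2) * (A.card : ℝ) ^ (2 * p) := by
      calc (X : ℝ) ^ (2 * p) ≤ ((N : ℝ) ^ θ * A.card) ^ (2 * p) := by gcongr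
        _ = ((N : ℝ) ^ θ) ^ (2 * p) * (A.card : ℝ) ^ (2 * p) := mul_pow _ _ _
        _ ≤ _ := by
            apply mul_le_mul_of_nonneg_right _ (by positivity)
            rw [← Real.rpow_natCast, ← Real.rpow_mul hN0.le]
            apply Real.rpow_le_rpow_of_exponent_le hN1
            rw [le_div_iff₀ (by positivity)] at hθ'
            push_cast
            linarith
    have h6 := h2 N (by omega)
    have hlog0 : 0 ≤ Real.log (X ^ f.natDegree : ℕ) := by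
      apply Real.log_nonneg
      exact_mod_cast Nat.one_le_pow _ _ hX1
    calc (energy p (fun i : A => g (e i)) : ℝ) * (((B' + 1) * X ^ f.natDegree : ℕ) : ℝ) ≤
          (energy p g : ℝ) * (((B' + 1) * X ^ f.natDegree : ℕ) : ℝ) := by gcongr
      _ = (B' + 1) * ((energy p g : ℝ) * (X ^ f.natDegree : ℕ)) := by push_cast; ring
      _ ≤ (B' + 1) * (Real.log (X ^ f.natDegree : ℕ) * (X : ℝ) ^ (2 * p)) := by gcongr
      _ ≤ (B' + 1) * (((B + 4 / θ₁) * (N : ℝ) ^ (θ₁ / 4)) *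
            ((N : ℝ) ^ (θ₁ / 2) * (A.card : ℝ) ^ (2 * p))) := by gcongr
      _ = (((B' : ℝ) + 1) * (B + 4 / θ₁)) * ((N : ℝ) ^ (θ₁ / 4) * (N : ℝ) ^ (θ₁ / 2)) *
            (A.card : ℝ) ^ (2 * p) := by ring
      _ ≤ (N : ℝ) ^ (θ₁ / 4) * ((N : ℝ) ^ (θ₁ / 4) * (N : ℝ) ^ (θ₁ / 2)) *
            (A.card : ℝ) ^ (2 * p) := by gcongr
      _ = _ := by
          rw [← Real.rpow_add hN0, ← Real.rpow_add hN0]
          congr 2
          ring

end Pool.Agent.V5helper55.BF
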