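import Mathlib

/-!
# Bilinear families: characters, moments, counting
-/

set_option autoImplicit false

namespace Pool.Agent.V5helper55.BF

open Finset ComplexConjugate

section basic

variable {Q : ℕ} [NeZero Q]

/-- the character `x ↦ e (k x / Q)` -/
noncomputable def ch (k : ZMod Q) (x : ℤ) : ℂ := ZMod.stdAddChar (k * (x : ZMod Q))

lemma ch_zero (k : ZMod Q) : ch k 0 = 1 := by simp [ch]

lemma ch_add (k : ZMod Q) (x y : ℤ) : ch k (x + y) = ch k x * ch k y := by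
  unfold ch
  push_cast
  rw [mul_add, AddChar.map_add_eq_mul]

lemma norm_ch (k : ZMod Q) (x : ℤ) : ‖ch k x‖ = 1 := AddChar.norm_apply _ _

lemma ch_neg (k : ZMod Q) (x : ℤ) : ch k (-x) = conj (ch k x) := by
  unfold ch
  push_cast
  rw [mul_neg, AddChar.map_neg_eq_conj]

lemma ch_sub (k : ZMod Q) (x y : ℤ) : ch k (x - y) = ch k x * conj (ch k y) := by
  rw [sub_eq_add_neg, ch_add, ch_neg]

lemma ch_mul (k : ZMod Q) (x y : ℤ) : ch k (x * y) = ch (k * (x : ZMod Q)) y := by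
  unfold ch
  push_cast
  rw [mul_assoc]

lemma ch_sum {ι : Type*} (k : ZMod Q) (s : Finset ι) (f : ι → ℤ) :
    ch k (∑ i ∈ s, f i) = ∏ i ∈ s, ch k (f i) := by
  classical
  induction s using Finset.induction_on with
  | empty => simp [ch_zero]
  | insert i s hi ih => rw [sum_insert hi, prod_insert hi, ch_add, ih]

lemma sum_ch (x : ℤ) : ∑ k : ZMod Q, ch k x = if (x : ZMod Q) = 0 then (Q : ℂ) else 0 := by
  classical
  have h := AddChar.sum_mulShift (R := ZMod Q) (x : ZMod Q) (ZMod.isPrimitive_stdAddChar Q)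
  unfold ch
  rw [h, ZMod.card]
  push_cast
  rfl

lemma count {β : Type*} (s : Finset β) (x : β → ℤ) (h : ∀ b ∈ s, |x b| < Q) :
    ∑ k : ZMod Q, ∑ b ∈ s, ch k (x b) = (Q : ℂ) * ((s.filter (fun b => x b = 0)).card : ℂ) := by
  rw [sum_comm]
  have h1 : ∀ b ∈ s, ∑ k : ZMod Q, ch k (x b) = if x b = 0 then (Q : ℂ) else 0 := by
    intro b hb
    rw [sum_ch]
    congr 1
    rw [eq_iff_iff, ZMod.intCast_zmod_eq_zero_iff_dvd]
    constructor
    · intro h2
      exact Int.eq_zero_of_abs_lt_dvd h2 (h b hb)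
    · intro h2
      rw [h2]
      exact dvd_zero _
  rw [sum_congr rfl h1, ← sum_filter, sum_const, nsmul_eq_mul, mul_comm]

variable {ι : Type*} [Fintype ι]

lemma norm_pow (k : ZMod Q) (v : ι → ℤ) (p : ℕ) :
    ((‖∑ i, ch k (v i)‖ ^ (2 * p) : ℝ) : ℂ) =
      ∑ q : (Fin p → ι) × (Fin p → ι), ch k (∑ j, v (q.1 j) - ∑ j, v (q.2 j)) := by
  have h1 : (∑ i, ch k (v i)) ^ p = ∑ q : Fin p → ι, ch k (∑ j, v (q j)) := by
    rw [Fintype.sum_pow]
    exact sum_congr rfl fun q _ => (ch_sum k univ fun j => v (q j)).symm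
  rw [pow_mul, Complex.ofReal_pow, Complex.ofReal_pow, ← Complex.mul_conj', mul_pow, ← map_pow, h1,
    map_sum, Fintype.sum_mul_sum, Fintype.sum_prod_type]
  exact sum_congr rfl fun q _ => sum_congr rfl fun q' _ => (ch_sub k _ _).symm

lemma norm_sq {β : Type*} (s : Finset β) (k : ZMod Q) (f : β → ℤ) :
    ((‖∑ i ∈ s, ch k (f i)‖ ^ 2 : ℝ) : ℂ) = ∑ z ∈ s ×ˢ s, ch k (f z.1 - f z.2) := by
  rw [Complex.ofReal_pow, ← Complex.mul_conj', map_sum, sum_mul_sum, sum_product]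
  exact sum_congr rfl fun q _ => sum_congr rfl fun q' _ => (ch_sub k _ _).symm

lemma norm_sq' (k : ZMod Q) (w : ι → ℤ) :
    ((‖∑ i, ch k (w i)‖ ^ 2 : ℝ) : ℂ) = ∑ z : ι × ι, ch k (w z.1 - w z.2) := by
  rw [Complex.ofReal_pow, ← Complex.mul_conj', map_sum, Fintype.sum_mul_sum, Fintype.sum_prod_type]
  exact sum_congr rfl fun q _ => sum_congr rfl fun q' _ => (ch_sub k _ _).symm

end basic

section rep

variable {ι : Type*} [Fintype ι]

/-- the difference of the two sums -/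
def df (p : ℕ) (v : ι → ℤ) (q : (Fin p → ι) × (Fin p → ι)) : ℤ := ∑ j, v (q.1 j) - ∑ j, v (q.2 j)

/-- the number of the representations -/
def rep (p : ℕ) (v : ι → ℤ) (t : ℤ) : ℕ :=
  (univ.filter (fun q : (Fin p → ι) × (Fin p → ι) => df p v q = t)).card

omit [Fintype ι] in
lemma abs_df (p : ℕ) (v : ι → ℤ) (M : ℕ) (hv : ∀ i, |v i| ≤ M) (q : (Fin p → ι) × (Fin p → ι)) :
    |df p v q| ≤ 2 * p * M := by
  have h1 : ∀ q : Fin p → ι, |∑ j, v (q j)| ≤ p * M := by
    intro q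
    refine (abs_sum_le_sum_abs _ _).trans ((sum_le_sum fun j _ => hv (q j)).trans ?_)
    rw [sum_const, card_univ, Fintype.card_fin, nsmul_eq_mul]
  have h2 := abs_sub (∑ j, v (q.1 j)) (∑ j, v (q.2 j))
  have h3 := h1 q.1
  have h4 := h1 q.2
  unfold df
  linarith

lemma moment (Q : ℕ) [NeZero Q] (p : ℕ) (v : ι → ℤ) (hQ : ∀ q, |df p v q| < Q) :
    ∑ k : ZMod Q, ‖∑ i, ch k (v i)‖ ^ (2 * p) = Q * rep p v 0 := by
  have h1 := count (Q := Q) univ (df p v) (fun q _ => hQ q)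
  have h2 : ((∑ k : ZMod Q, ‖∑ i, ch k (v i)‖ ^ (2 * p) : ℝ) : ℂ) = ((Q * rep p v 0 : ℝ) : ℂ) := by
    rw [Complex.ofReal_sum, sum_congr rfl fun k _ => norm_pow k v p]
    refine h1.trans ?_
    unfold rep
    push_cast
    rfl
  exact_mod_cast h2

lemma rep_le (p : ℕ) (v : ι → ℤ) (t : ℤ) : rep p v t ≤ rep p v 0 := by
  obtain ⟨Q, hQ⟩ : ∃ Q : ℕ, Q = ∑ q, ((df p v q).natAbs + (df p v q - t).natAbs) + 1 := ⟨_, rfl⟩
  have : NeZero Q := ⟨by omega⟩
  have hb : ∀ q, |df p v q| < Q ∧ |df p v q - t| < Q := by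
    intro q
    have h1 : (df p v q).natAbs + (df p v q - t).natAbs ≤
        ∑ q, ((df p v q).natAbs + (df p v q - t).natAbs) :=
      single_le_sum (f := fun q => (df p v q).natAbs + (df p v q - t).natAbs)
        (fun _ _ => Nat.zero_le _) (mem_univ q)
    rw [Int.abs_eq_natAbs, Int.abs_eq_natAbs]
    constructor <;> · norm_cast; omega
  have h1 := count (Q := Q) univ (fun q => df p v q - t) (fun q _ => (hb q).2)
  have h2 := moment Q p v (fun q => (hb q).1)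
  have h3 : ∀ k : ZMod Q, ∑ q, ch k (df p v q - t) =
      ((‖∑ i, ch k (v i)‖ ^ (2 * p) : ℝ) : ℂ) * conj (ch k t) := by
    intro k
    rw [norm_pow, sum_mul]
    exact sum_congr rfl fun q _ => ch_sub k _ _
  rw [sum_congr rfl fun k _ => h3 k] at h1
  have h4 : ‖(Q : ℂ) * ((univ.filter (fun q => df p v q - t = 0)).card : ℂ)‖ ≤ (Q : ℝ) * rep p v 0 := by
    rw [← h1, ← h2]
    refine (norm_sum_le _ _).trans (sum_le_sum fun k _ => ?_)
    rw [norm_mul, Complex.norm_conj, norm_ch, mul_one, Complex.norm_real, Real.norm_of_nonneg (by positivity)]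
  rw [norm_mul, Complex.norm_natCast, Complex.norm_natCast] at h4
  have h5 : (0 : ℝ) < Q := by exact_mod_cast Nat.pos_of_ne_zero (NeZero.ne Q)
  have h6 := le_of_mul_le_mul_left h4 h5
  have h7 : rep p v t = (univ.filter (fun q => df p v q - t = 0)).card := by
    unfold rep
    congr 1
    ext q
    simp only [mem_filter, mem_univ, true_and, sub_eq_zero]
  rw [h7]
  exact_mod_cast h6

lemma group (p : ℕ) (v : ι → ℤ) (T : ℕ) (hT : ∀ q, |df p v q| ≤ T) (g : ℤ → ℝ) (hg : ∀ t, 0 ≤ g t) :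
    ∑ q, g (df p v q) ≤ rep p v 0 * ∑ t ∈ Icc (-(T : ℤ)) T, g t := by
  have h1 : ∀ q ∈ (univ : Finset ((Fin p → ι) × (Fin p → ι))), df p v q ∈ Icc (-(T : ℤ)) T := by
    intro q _
    rw [mem_Icc]
    exact abs_le.1 (hT q)
  rw [← sum_fiberwise_of_maps_to h1, mul_sum]
  refine sum_le_sum fun t _ => ?_
  have h2 : ∀ q ∈ univ.filter (fun q : (Fin p → ι) × (Fin p → ι) => df p v q = t),
      g (df p v q) = g t := by
    intro q hq
    rw [(mem_filter.1 hq).2]
  rw [sum_congr rfl h2, sum_const, nsmul_eq_mul]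
  refine mul_le_mul_of_nonneg_right ?_ (hg t)
  exact_mod_cast rep_le p v t

end rep

end Pool.Agent.V5helper55.BF
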